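import Pool.Agent.Helper69.EK5.Asm
import Pool.Agent.Helper69.EK3.Fin2
set_option autoImplicit false
open Complex MeasureTheory Metric Set
open scoped Real ComplexConjugate

/-!
# Project EK5: from the data of a certificate to the integral means
-/

namespace Pool.Agent.Helper69.EK5

open Pool.Sos71
open Pool.EK71 Pool.Agent.Helper52.EK Pool.Agent.Helper2.EK
open Pool.Agent.Helper69.EK3
open Pool.Agent.Helper71.EK3 (xL yL r2L FL G2L e_x e_y e_r2 e_F e_G2)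
open Pool.Agent.Helper71.EKC (c1_unique pw2 e_pw sb2 e_sb)
open Pool.Agent.Helper71.EKC (c1_conj)
open Pool.Agent.Helper69.EK3.Dat (SideOk half_bd pi_err disc_im)

/-! ### the discs of Bieberbach -/

/-- `16 - |(1 + e₀)(2 σ X - 1 + X'/X) + 2|²` -/
def eDi (σ : ℤ) : Ex :=
  Ex.add (Ex.sc 16 eone) (Ex.sc (-4) (Ex.add
    (Ex.pow (Ex.add (Ex.va 3) (Ex.mul (Ex.sc (2 * σ) eA) (Ex.bp [[1], [1]]))) 2)
    (Ex.pow (Ex.add (Ex.add (Ex.va 4) (Ex.mul (Ex.sc (2 * σ) eA) (Ex.bp [[0, 1]])))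
      (Ex.sc (-1) eB)) 2)))

theorem px_Di (σ : ℤ) (l η : ℝ) (X Y : ℂ) : (eDi σ).re (px l η X Y) =
    16 - ‖dA (σ : ℝ) X Y (Real.sin η) (Real.cos η)‖ ^ 2 := by
  have e : (eDi σ).re (px l η X Y) = ((16 : ℤ) : ℝ) * eo.re (px l η X Y) ^ 2 +
      ((-4 : ℤ) : ℝ) * ((Real.sin η * (Y / X).re + ((2 * σ : ℤ) : ℝ) * eA.re (px l η X Y) *
        ev2 (X.re - 1) X.im [[1], [1]]) ^ 2 + (Real.sin η * (Y / X).im + ((2 * σ : ℤ) : ℝ) *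
        eA.re (px l η X Y) * ev2 (X.re - 1) X.im [[0, 1]] + ((-1 : ℤ) : ℝ) *
        eB.re (px l η X Y)) ^ 2) := rfl
  have h3 := Real.sin_sq_add_cos_sq η
  have h3c : (Real.sin η : ℂ) ^ 2 + (Real.cos η : ℂ) ^ 2 = 1 := by exact_mod_cast h3
  have h4 : ‖(Real.sin η : ℂ) + (Real.cos η : ℂ) * I‖ ^ 2 = 1 := by
    rw [nq_sq]
    simp only [add_re, add_im, mul_re, mul_im, ofReal_re, ofReal_im, I_re, I_im, mul_zero,
      mul_one, sub_zero, add_zero, zero_add]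
    exact h3
  have h5 : dA (σ : ℝ) X Y (Real.sin η) (Real.cos η) =
      2 * ((Real.sin η : ℂ) + (Real.cos η : ℂ) * I) *
        ((Real.sin η : ℂ) * (Y / X) + 2 * (σ : ℂ) * (Real.sin η : ℂ) * X -
          (Real.cos η : ℂ) * I) := by
    unfold dA e0
    push_cast
    have h3c' : Complex.sin η ^ 2 + Complex.cos η ^ 2 = 1 := by
      push_cast at h3c
      exact h3c
    linear_combination (2 * (σ : ℂ) * X - 1 + Y / X) * (-h3c' - Complex.sin η ^ 2 * I_sq) -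
      2 * h3c' + 2 * Complex.cos η ^ 2 * I_sq
  rw [e, px_A, px_B, px_o, h5, norm_mul, norm_mul, mul_pow, mul_pow, h4, nq_sq (_ - _)]
  simp only [ev2, ev1, sub_re, sub_im, add_re, add_im, mul_re, mul_im, ofReal_re, ofReal_im,
    I_re, I_im, intCast_re, intCast_im, re_ofNat, im_ofNat, Complex.norm_ofNat, mul_zero, mul_one,
    sub_zero, add_zero, zero_add, zero_mul]
  push_cast
  ring

/-- nonnegativity of the target of one side, with two disc multipliers -/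
def Side (K : ℕ) (Ln Ld : ℤ) (t : Ex) : Prop :=
  ∃ B : ℝ, ∀ x : Pnt, 0 ≤ x.b → x.b ≤ x.c → x.b ^ 2 + x.c ^ 2 = 1 → 0 ≤ x.a →
    (Ld : ℝ) * x.a ≤ Ln → ∃ q1 q2 : ℝ, 0 ≤ q1 ∧ q1 ≤ B * (1 + x.f ^ 2 + x.g ^ 2) ^ K ∧
      0 ≤ q2 ∧ q2 ≤ B * (1 + x.f ^ 2 + x.g ^ 2) ^ K ∧
      q1 * (eDi 1).re x + q2 * (eDi (-1)).re x ≤ t.re x

theorem Side.of_pos {K : ℕ} {Ln Ld : ℤ} {t : Ex} (h : ∀ x : Pnt, 0 ≤ x.b → x.b ≤ x.c →
    x.b ^ 2 + x.c ^ 2 = 1 → 0 ≤ x.a → (Ld : ℝ) * x.a ≤ Ln → 0 ≤ t.re x) : Side K Ln Ld t :=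
  ⟨0, fun x h1 h2 h3 h4 h5 => ⟨0, 0, le_rfl, by simp, le_rfl, by simp, by
    rw [zero_mul, zero_mul, add_zero]
    exact h x h1 h2 h3 h4 h5⟩⟩

namespace Dat

/-- conditions on the data -/
structure Ok2 (c : Dat) (ka kb p0 p1 p2 la lb q0 q1 q2 : ℝ) (Ln Ld Ln' Ld' : ℤ) : Prop where
  wf : c.wf = true
  M0 : 0 < c.M
  lam0 : 0 ≤ c.lam
  c10 : 0 ≤ c.c1
  fi : SideOk c.M c.fi 1 ka kb p0 p1 p2
  fo : SideOk c.M c.fo (-1) la lb q0 q1 q2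
  Ld0 : 0 < Ld
  Ld0' : 0 < Ld'
  inn : InOk ka kb p0 p1 p2 (Ln / Ld)
  out : OutOk la lb q0 q1 q2 (Ln' / Ld')

variable {c : Dat} {ka kb p0 p1 p2 la lb q0 q1 q2 : ℝ} {Ln Ld Ln' Ld' : ℤ}

theorem tSide_re (w : c.Wf) (f : Sd) {X Y : ℂ} (hX : X ≠ 0) (l η : ℝ)
    (h : (eCon f).re (px l η X Y) = 0) : (c.tSide f).re (px l η X Y) =
    Dd c.a X.re X.im ^ c.K * (c.NT X Y η + (c.lam * ‖X - 1‖ ^ 2 +
      c.a2 * ((X.re - 1) ^ 2 - X.im ^ 2)) - (eTT c.M f).re (px l η X Y)) := by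
  have e : (c.tSide f).re (px l η X Y) = c.tN.re (px l η X Y) +
      (((eo.re (px l η X Y)) ^ (c.h - 2) * ev2 (X.re - 1) X.im (sm2 (-1) (Dn c.a c.K))) *
        (eTT c.M f).re (px l η X Y) + (c.tMul f).re (px l η X Y) * (eCon f).re (px l η X Y)) := rfl
  rw [e, h, tN_re w hX, px_o, one_pow, ev2_sm, Dn_ev]
  push_cast
  ring

theorem Side.apply {c : Dat} {t : Ex} (h : Side c.K Ln Ld t) : ∃ B : ℝ, 0 ≤ B ∧
    ∀ (X Y : ℂ) (l η : ℝ), η ∈ Icc (0:ℝ) (π / 2) → 0 ≤ l → (Ld : ℝ) * l ≤ Ln →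
      ∃ q1 q2 : ℝ, 0 ≤ q1 ∧ q1 ≤ B ∧ 0 ≤ q2 ∧ q2 ≤ B ∧
      Dd c.a X.re X.im ^ c.K * (q1 * (16 - ‖dA 1 X Y (Real.sin η) (Real.cos η)‖ ^ 2) +
        q2 * (16 - ‖dA (-1) X Y (Real.sin η) (Real.cos η)‖ ^ 2)) ≤ t.re (px l η X Y) := by
  obtain ⟨B, hB⟩ := h
  obtain ⟨k, hk, hl⟩ := Dd_low c.a
  refine ⟨|B| * k ^ c.K, by positivity, fun X Y l η hη l0 l1 => ?_⟩
  obtain ⟨b1, b2⟩ := half_bd hη
  have hD := Dd_pos c.a X.re X.im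
  have hDK : 0 < Dd c.a X.re X.im ^ c.K := pow_pos hD _
  obtain ⟨q1, q2, g1, g2, g3, g4, g5⟩ := hB (px l η X Y) b1 b2 (Real.sin_sq_add_cos_sq _) l0 l1
  have hu : (1 + (X.re - 1) ^ 2 + X.im ^ 2) ^ c.K ≤ k ^ c.K * Dd c.a X.re X.im ^ c.K := by
    rw [← mul_pow]
    refine pow_le_pow_left₀ (by positivity) ?_ _
    have := hl X.re X.im
    linarith
  have hb : B * (1 + (X.re - 1) ^ 2 + X.im ^ 2) ^ c.K ≤
      |B| * k ^ c.K * Dd c.a X.re X.im ^ c.K := by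
    have h0 : 0 ≤ (1 + (X.re - 1) ^ 2 + X.im ^ 2) ^ c.K := by positivity
    calc B * (1 + (X.re - 1) ^ 2 + X.im ^ 2) ^ c.K ≤
          |B| * (1 + (X.re - 1) ^ 2 + X.im ^ 2) ^ c.K :=
          mul_le_mul_of_nonneg_right (le_abs_self B) h0
      _ ≤ |B| * (k ^ c.K * Dd c.a X.re X.im ^ c.K) := mul_le_mul_of_nonneg_left hu (abs_nonneg B)
      _ = _ := by ring
  refine ⟨q1 / Dd c.a X.re X.im ^ c.K, q2 / Dd c.a X.re X.im ^ c.K, div_nonneg g1 hDK.le, ?_,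
    div_nonneg g3 hDK.le, ?_, ?_⟩
  · rw [div_le_iff₀ hDK]
    exact g2.trans hb
  · rw [div_le_iff₀ hDK]
    exact g4.trans hb
  · rw [px_Di, px_Di] at g5
    push_cast at g5
    have e : ∀ A B : ℝ, Dd c.a X.re X.im ^ c.K * (q1 / Dd c.a X.re X.im ^ c.K * A +
        q2 / Dd c.a X.re X.im ^ c.K * B) = q1 * A + q2 * B := by
      intro A B
      field_simp
    rw [e]
    exact g5

theorem SideOk_con {M : ℤ} {f : Sd} {sg : ℤ} (h : SideOk M f sg ka kb p0 p1 p2) {X Y : ℂ} {η l : ℝ}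
    (hl : l * rF p0 p1 p2 (mX X Y (Real.sin η) (Real.cos η)) =
      sg * (1 - ‖mX X Y (Real.sin η) (Real.cos η)‖ ^ 2)) (hs : (sg : ℝ) ^ 2 = 1) :
    (eCon f).re (px l η X Y) = 0 := by
  rw [px_Con, h.r0, h.r1, h.r2, h.sg]
  unfold rF at hl
  linear_combination (f.r * (sg : ℝ)) * hl + (f.r * (1 -
    ‖mX X Y (Real.sin η) (Real.cos η)‖ ^ 2)) * hs

/-- the pointwise inequality -/
theorem Ok2.point (o : c.Ok2 ka kb p0 p1 p2 la lb q0 q1 q2 Ln Ld Ln' Ld')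
    (hIn : Side c.K Ln Ld c.tIn) (hOut : Side c.K Ln' Ld' c.tOut) : ∃ B : ℝ, 0 ≤ B ∧
    ∀ X Y : ℂ, X ≠ 0 → ∀ η ∈ Icc (0:ℝ) (π / 2), ∃ l1 l2 : ℝ, 0 ≤ l1 ∧ l1 ≤ B ∧ 0 ≤ l2 ∧ l2 ≤ B ∧
    c.M * TG (Gq ka kb p0 p1 p2 la lb q0 q1 q2) X Y (Real.sin η) (Real.cos η) +
      (l1 * (16 - ‖dA 1 X Y (Real.sin η) (Real.cos η)‖ ^ 2) +
        l2 * (16 - ‖dA (-1) X Y (Real.sin η) (Real.cos η)‖ ^ 2)) ≤
      c.NT X Y η + (c.lam * ‖X - 1‖ ^ 2 + c.a2 * ((X.re - 1) ^ 2 - X.im ^ 2)) := by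
  obtain ⟨B1, hB1, k1⟩ := Side.apply hIn
  obtain ⟨B2, hB2, k2⟩ := Side.apply hOut
  have w := wf_iff c o.wf
  refine ⟨max B1 B2, le_max_of_le_left hB1, fun X Y hX η hη => ?_⟩
  have hM : (0:ℝ) < c.M := by exact_mod_cast o.M0
  have hD : 0 < Dd c.a X.re X.im ^ c.K := pow_pos (Dd_pos _ _ _) _
  unfold TG Gq
  set m := mX X Y (Real.sin η) (Real.cos η) with hm
  by_cases h1 : ‖m‖ ≤ 1
  · rw [if_pos h1]
    obtain ⟨d1, d2, d3⟩ := o.inn.l_bd h1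
    obtain ⟨l, hl⟩ : ∃ l : ℝ, l = (1 - ‖m‖ ^ 2) / rF p0 p1 p2 m := ⟨_, rfl⟩
    have hL : (0:ℝ) < Ld := by exact_mod_cast o.Ld0
    rw [← hl] at d2 d3
    have hc : (eCon c.fi).re (px l η X Y) = 0 := by
      refine SideOk_con o.fi ?_ (by norm_num)
      rw [← hm, hl, div_mul_cancel₀ _ d1.ne']
      push_cast
      ring
    obtain ⟨l1, l2, a1, a2, a3, a4, h5⟩ := k1 X Y l η hη d2 (by
      rw [le_div_iff₀ hL] at d3
      linarith)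
    have h6 : c.tIn.re (px l η X Y) = _ := tSide_re w c.fi (Y := Y) hX l η hc
    rw [h6] at h5
    have h7 := le_of_mul_le_mul_left h5 hD
    rw [px_TT l η X Y o.fi.ma o.fi.mb o.fi.maa o.fi.mab o.fi.mbb (by rw [o.fi.sg]; norm_num),
      ← hm, o.fi.sg] at h7
    refine ⟨l1, l2, a1, a2.trans (le_max_left _ _), a3, a4.trans (le_max_left _ _), ?_⟩
    unfold Fq
    rw [← hl]
    push_cast at h7
    rw [one_mul] at h7
    linarith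
  · rw [if_neg h1]
    have h1' : 1 < ‖m‖ := not_le.1 h1
    obtain ⟨d1, d2, d3⟩ := o.out.l_bd h1'.le
    obtain ⟨l, hl⟩ : ∃ l : ℝ, l = (‖m‖ ^ 2 - 1) / rF q0 q1 q2 m := ⟨_, rfl⟩
    have hL : (0:ℝ) < Ld' := by exact_mod_cast o.Ld0'
    rw [← hl] at d2 d3
    have hc : (eCon c.fo).re (px l η X Y) = 0 := by
      refine SideOk_con o.fo ?_ (by norm_num)
      rw [← hm, hl, div_mul_cancel₀ _ d1.ne']
      push_cast
      ring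
    obtain ⟨l1, l2, a1, a2, a3, a4, h5⟩ := k2 X Y l η hη d2 (by
      rw [le_div_iff₀ hL] at d3
      linarith)
    have h6 : c.tOut.re (px l η X Y) = _ := tSide_re w c.fo (Y := Y) hX l η hc
    rw [h6] at h5
    have h7 := le_of_mul_le_mul_left h5 hD
    rw [px_TT l η X Y o.fo.ma o.fo.mb o.fo.maa o.fo.mab o.fo.mbb (by rw [o.fo.sg]; norm_num),
      ← hm, o.fo.sg] at h7
    have e : (1 - ‖m‖ ^ 2) / rF q0 q1 q2 m = ((-1 : ℤ) : ℝ) * l := by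
      rw [hl]
      push_cast
      ring
    refine ⟨l1, l2, a1, a2.trans (le_max_right _ _), a3, a4.trans (le_max_right _ _), ?_⟩
    unfold Fq
    rw [e]
    linarith

/-- **the bound for one target from the data** -/
theorem Ok2.K_one (o : c.Ok2 ka kb p0 p1 p2 la lb q0 q1 q2 Ln Ld Ln' Ld')
    (hIn : Side c.K Ln Ld c.tIn) (hOut : Side c.K Ln' Ld' c.tOut)
    (hCen : ∀ x : Pnt, 0 ≤ -2 * x.f - x.f ^ 2 - x.g ^ 2 → 0 ≤ (Ex.bp c.cen).re x)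
    {κ : ℝ} (hκ : (c.lam : ℝ) + c.c1 + (c.c1 + 2 * |(c.a2 : ℝ)|) / 10 ^ 7 < 2 * κ * c.M) :
    ∃ C a₀ : ℝ, a₀ < 1 ∧ ∀ (β : ℂ → ℂ) (R a : ℝ), ExtR β R → a₀ < a → a < 1 →
      Kf (Pool.Agent.Helper52.EK.wf (Gq ka kb p0 p1 p2 la lb q0 q1 q2) β) 1 (-1) (Real.log a) ≤ κ * Real.log (‖N β a‖ / (1 - a ^ 2)) + C := by
  have w := wf_iff c o.wf
  obtain ⟨CG, hGl⟩ := Gq_glip o.inn o.out
  have hM : (0:ℝ) < c.M := by exact_mod_cast o.M0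
  have hlam : (0:ℝ) ≤ c.lam := by exact_mod_cast o.lam0
  have hc1 : (0:ℝ) ≤ c.c1 := by exact_mod_cast o.c10
  obtain ⟨p, hp⟩ : ∃ p : ℝ, p = 355 / 113 := ⟨_, rfl⟩
  obtain ⟨e1, e2⟩ := pi_err hp
  have hpi := Real.pi_pos
  obtain ⟨ε, hε⟩ : ∃ ε : ℝ, ε = (c.c1 + 2 * |(c.a2 : ℝ)|) * ((p - π) / π) := ⟨_, rfl⟩
  have hA : 0 ≤ (c.c1 : ℝ) + 2 * |(c.a2 : ℝ)| := by positivity
  have hε0 : 0 ≤ ε := by
    rw [hε]
    exact mul_nonneg hA (div_nonneg e1 hpi.le)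
  have hε1 : ε ≤ (c.c1 + 2 * |(c.a2 : ℝ)|) / 10 ^ 7 := by
    rw [hε, div_eq_mul_one_div (_ + _ : ℝ) (10 ^ 7 : ℝ)]
    exact mul_le_mul_of_nonneg_left e2 hA
  have hεπ : ε * π = (c.c1 + 2 * |(c.a2 : ℝ)|) * (p - π) := by
    rw [hε]
    field_simp
  obtain ⟨k, hk⟩ : ∃ k : ℝ, k = c.c1 + ε := ⟨_, rfl⟩
  -- the null Lagrangian
  have n1 := (isNull_har (β := fun _ => (1:ℝ)) continuous_const 2 le_rfl).const_mul (c.a2 : ℝ)
  have n2 := (isNull_har (β := fun _ => (1:ℝ)) continuous_const 1 (by norm_num)).const_mul k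
  have hN := (((isNull_NT w).add n1).add n2).const_mul (1 / (c.M : ℝ))
  have hre2 : ∀ X : ℂ, ((X - 1) ^ 2).re = (X.re - 1) ^ 2 - X.im ^ 2 := by
    intro X
    rw [pow_two (X - 1), mul_re]
    simp
    ring
  have hre1 : ∀ X : ℂ, ((X - 1) ^ 1).re = X.re - 1 := by
    intro X
    simp
  have hint : ∫ _ in (0:ℝ)..(π / 2), (1:ℝ) = π / 2 := by simp
  obtain ⟨Ecx, Ecy, hEc⟩ := Ecp_c1 (c := c) k π
  obtain ⟨B, hB0, hpt⟩ := o.point hIn hOut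
  refine K_one3_d (M := B / c.M) (lam := c.lam / c.M) (k₂ := (c.lam + k) / c.M)
    (div_nonneg hB0 hM.le) (div_nonneg hlam hM.le) ?_ ?_ hGl (Gq_conj _ _ _ _ _ _ _ _ _ _) hN ?_
    (c1_const 0) (c1_mul (c1_const (1 / (c.M : ℝ))) hEc) ?_ ?_
  · rw [div_le_div_iff_of_pos_right hM, hk]
    linarith
  · rw [div_lt_iff₀ hM, hk]
    linarith
  · intro Z Y hZ η hη
    obtain ⟨l1, l2, a1, a2, a3, a4, h1⟩ := hpt Z Y hZ η hη
    refine ⟨0, l1 / c.M, l2 / c.M, le_rfl, div_nonneg hB0 hM.le, div_nonneg a1 hM.le,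
      div_le_div_of_nonneg_right a2 hM.le, div_nonneg a3 hM.le,
      div_le_div_of_nonneg_right a4 hM.le, ?_⟩
    have e0 : ‖Z - 1‖ ^ 2 = ‖Z‖ ^ 2 - 2 * Z.re + 1 := by
      rw [nq_sq, nq_sq]
      simp
      ring
    rw [e0] at h1
    rw [hre2, hre1]
    refine le_of_mul_le_mul_left (le_trans (le_of_eq ?_) (h1.trans (le_of_eq ?_))) hM
    · field_simp
      ring
    · field_simp
      ring
  · intro X Y hX
    have h1 := KT_conj w X Y k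
    rw [hint, hre2, hre1, hre2, hre1]
    simp only [zero_mul, add_zero]
    linear_combination (1 / (c.M : ℝ)) * h1
  · intro X hX
    refine mul_nonneg (by positivity) ?_
    have h1 : 0 ≤ (Ex.bp c.cen).re ⟨0, 0, 0, 0, 0, X.re - 1, X.im⟩ := by
      apply hCen
      show 0 ≤ -2 * (X.re - 1) - (X.re - 1) ^ 2 - X.im ^ 2
      have h1 : X.re ^ 2 + X.im ^ 2 ≤ 1 := by
        rw [← nq_sq]
        nlinarith [norm_nonneg X]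
      linarith
    have h2 : (Ex.bp c.cen).re ⟨0, 0, 0, 0, 0, X.re - 1, X.im⟩ = ev2 (X.re - 1) X.im c.cen := rfl
    rw [h2, cen_ev w, ← hp] at h1
    have h3 : 0 ≤ c.Ecp c.c1 p X := by
      refine nonneg_of_mul_nonneg_right h1 ?_
      have := pow_pos (Dd_pos c.a X.re X.im) c.K
      positivity
    have h4 : c.Ecp k π X - c.Ecp c.c1 p X = (ε * π - c.c1 * (p - π)) * (1 - X.re) +
        c.a2 * (p - π) * ((X.re - 1) ^ 2 - X.im ^ 2) := by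
      unfold Ecp
      rw [hk]
      ring
    rw [hεπ] at h4
    have h5 := disc_im hX
    have h6 : -(|(c.a2 : ℝ)| * (2 * (1 - X.re))) ≤ c.a2 * ((X.re - 1) ^ 2 - X.im ^ 2) := by
      have h7 : |(c.a2 : ℝ) * ((X.re - 1) ^ 2 - X.im ^ 2)| ≤ |(c.a2 : ℝ)| * (2 * (1 - X.re)) := by
        rw [abs_mul]
        exact mul_le_mul_of_nonneg_left h5 (abs_nonneg _)
      exact (abs_le.1 h7).1
    have h8 := mul_le_mul_of_nonneg_left h6 e1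
    linarith

/-- **the integral means from the data** -/
theorem Ok2.moments (o : c.Ok2 ka kb p0 p1 p2 la lb q0 q1 q2 Ln Ld Ln' Ld')
    (hIn : Side c.K Ln Ld c.tIn) (hOut : Side c.K Ln' Ld' c.tOut)
    (hCen : ∀ x : Pnt, 0 ≤ -2 * x.f - x.f ^ 2 - x.g ^ 2 → 0 ≤ (Ex.bp c.cen).re x)
    {κ : ℝ} (h1 : 1 ≤ κ)
    (hκ : (c.lam : ℝ) + c.c1 + (c.c1 + 2 * |(c.a2 : ℝ)|) / 10 ^ 7 < 2 * κ * c.M) :
    ∀ p : ℝ, κ ≤ p → ∃ C : ℝ, ∀ ψ : ℂ → ℂ, DifferentiableOn ℂ ψ {z : ℂ | 1 < ‖z‖} →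
      InjOn ψ {z : ℂ | 1 < ‖z‖} →
      (∃ b : ℂ, Filter.Tendsto (fun z => ψ z - z) (Bornology.cobounded ℂ) (nhds b)) →
      ∀ R : ℝ, 1 < R →
      (2 * π)⁻¹ * (∫ θ in (0:ℝ)..(2 * π), ‖deriv ψ (R * Complex.exp (θ * I))‖ ^ (-p)) ≤
        C * (R ^ 2 / (R ^ 2 - 1)) ^ (p - 1) := by
  have k1 := o.K_one hIn hOut hCen hκ
  obtain ⟨CG, hGl⟩ := Gq_glip o.inn o.out
  have k2 := Pool.Agent.Helper61.EK.gibbs_of (κ := κ) (G := (Gq ka kb p0 p1 p2 la lb q0 q1 q2))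
    Pool.Agent.Helper5.EK.entropy
    (fun hw _ h1 h2 => Pool.Agent.Helper26.EK.Kf_cont hw h1 h2)
    (fun h => Pool.Agent.Helper70.EK.wf_cont hGl h) k1
  exact Pool.Agent.Helper32.EK.final (Pool.Agent.Helper28.EK.moment_Ext h1 k2)

end Dat

end Pool.Agent.Helper69.EK5
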