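import Pool.Agent.Helper69.EK5.Tgt
import Pool.Agent.Helper69.EK3.Dat
set_option autoImplicit false
open Complex MeasureTheory Metric Set
open scoped Real ComplexConjugate

/-!
# Project EK5: data of a certificate and the target expressions
-/

namespace Pool.Agent.Helper69.EK5

open Pool.Sos71
open Pool.EK71 Pool.Agent.Helper52.EK Pool.Agent.Helper2.EK
open Pool.Agent.Helper69.EK3
open Pool.Agent.Helper71.EK3 (xL yL r2L FL G2L e_x e_y e_r2 e_F e_G2)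
open Pool.Agent.Helper71.EKC (c1_unique pw2 e_pw sb2 e_sb)

structure Dat where
  a : DQ
  K : ℕ
  kU : ℕ
  kV : ℕ
  kF : ℕ
  kL : ℕ
  h : ℕ
  M : ℤ
  lam : ℤ
  c1 : ℤ
  a2 : ℤ
  UU : List (AP × BP)
  VX : List (AP × BP)
  VE : List (AP × BP)
  F0 : List (AP × BP)
  F1 : List (AP × BP)
  HH : List (AP × ℕ)
  HM : List (ℕ × Bool × ℤ)
  fi : Sd
  fo : Sd

def mulE (a : DQ) (K k : ℕ) (t : AP × BP) : Ex := Ex.mul (apE t.1) (Ex.bp (mu2 t.2 (Dn a (K - k))))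

def EHM (a : DQ) (K h : ℕ) (t : ℕ × Bool × ℤ) : Ex :=
  Ex.mul (Ex.mul (Ex.sc t.2.2 (if t.2.1 then (csE t.1).1 else (csE t.1).2)) (Ex.pow eo (h - t.1)))
    (Ex.bp (mu2 G2L (Dn a K)))

namespace Dat
variable (c : Dat)

/-- the null Lagrangians and `lam |X-1|² + a₂ Re (X-1)²`, times `D^K` -/
def tN : Ex :=
  sumE (EU c.a c.K c.kU) (sumE (EVX c.a c.K c.kV) (sumE (EVE c.a c.K c.kV)
    (sumE (EF0 c.a c.K c.kF) (sumE (EF1 c.a c.K c.kF) (sumE (EH c.a c.K)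
      (sumE (EHM c.a c.K c.h)
        (Ex.mul (Ex.pow eo c.h) (Ex.bp (mu2 (ad2 (sm2 c.lam FL) (sm2 c.a2 G2L)) (Dn c.a c.K))))
        c.HM) c.HH) c.F1) c.F0) c.VE) c.VX) c.UU

def tMul (f : Sd) : Ex :=
  Ex.add (sumE (mulE c.a c.K c.kL) (Ex.sc 0 (Ex.pow eo (c.h - 2))) f.L0)
    (Ex.mul (Ex.va 0) (sumE (mulE c.a c.K c.kL) (Ex.sc 0 (Ex.pow eo (c.h - 2))) f.L1))

def tSide (f : Sd) : Ex :=
  Ex.add c.tN (Ex.add
    (Ex.mul (Ex.mul (Ex.pow eo (c.h - 2)) (Ex.bp (sm2 (-1) (Dn c.a c.K)))) (eTT c.M f))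
    (Ex.mul (c.tMul f) (eCon f)))

def tIn : Ex := c.tSide c.fi
def tOut : Ex := c.tSide c.fo

end Dat

end Pool.Agent.Helper69.EK5
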