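import Pool.Agent.Helper69.EK5.XG
import Pool.Agent.Helper69.EK3.Fam
set_option autoImplicit false
open Complex MeasureTheory Metric Set
open scoped Real ComplexConjugate

/-!
# Project EK5: the families of null Lagrangians
-/

namespace Pool.Agent.Helper69.EK5

open Pool.EK71 Pool.Agent.Helper52.EK Pool.Agent.Helper2.EK
open Pool.Agent.Helper69.EK3
open Pool.Agent.Helper71.EK3 (xL yL r2L FL G2L e_x e_y e_r2 e_F e_G2)
open Pool.Agent.Helper71.EKC (c1_unique pw2 e_pw sb2 e_sb)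

variable {P : (ℂ → ℂ) → ℝ → ℝ → Prop}

noncomputable def NU (a : DQ) (j : ℕ) (t : AP × BP) (X Y : ℂ) (η : ℝ) : ℝ :=
  4 * af (ash 2 2 t.1) η * Rr a (j + 2) (qL a j t.2) X * ‖Y‖ ^ 2 -
    af (ader (ader (ash 2 2 t.1))) η * Rr a j t.2 X

noncomputable def KU (a : DQ) (j : ℕ) (t : AP × BP) (X Y : ℂ) : ℝ :=
  4 * af (ash 2 2 t.1) (π / 2) * dEta (Rr a (j + 1) (qX a j t.2)) (Rr a (j + 1) (qY a j t.2)) X Y -
    2 * af (ader (ash 2 2 t.1)) (π / 2) * Rr a j t.2 X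

theorem isNull_NU {a : DQ} {j : ℕ} (t : AP × BP) (h : dle (2 * j + 2) t.2 = true) :
    IsNull P (NU a j t) (KU a j t) := by
  obtain ⟨C, _, hC⟩ := Rr_le a j t.2 h
  exact isNull_U (c2_Rr a j t.2) (hd22 t.1) (hd22' t.1) (af_cont _)
    (by rw [af_ash22]; simp) (by rw [af_adas]; simp) hC

noncomputable def NVX (a : DQ) (j : ℕ) (t : AP × BP) (X Y : ℂ) (η : ℝ) : ℝ :=
  2 * af (ash 1 1 t.1) η * (Rr a (j + 1) (qX a j t.2) X * Y.re +
    Rr a (j + 1) (qY a j t.2) X * Y.im)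

theorem isNull_NVX {a : DQ} {j : ℕ} (t : AP × BP) (h : dle (2 * j + 2) t.2 = true) :
    IsNull P (NVX a j t) (fun _ _ => 0) := by
  obtain ⟨C, _, hC⟩ := Rr_le a j t.2 h
  exact isNull_W (c1_Rr a j t.2) (continuous_const.mul (af_cont _)) hC

noncomputable def NVE (a : DQ) (j : ℕ) (t : AP × BP) (X Y : ℂ) (η : ℝ) : ℝ :=
  2 * af (ash 1 1 t.1) η * dEta (Rr a (j + 1) (qX a j t.2)) (Rr a (j + 1) (qY a j t.2)) X Y +
    af (ader (ash 1 1 t.1)) η * Rr a j t.2 X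

noncomputable def KVE (a : DQ) (j : ℕ) (t : AP × BP) (X _Y : ℂ) : ℝ :=
  2 * af (ash 1 1 t.1) (π / 2) * Rr a j t.2 X

theorem isNull_NVE {a : DQ} {j : ℕ} (t : AP × BP) : IsNull P (NVE a j t) (KVE a j t) :=
  isNull_V (c1_Rr a j t.2) (hd11 t.1) (af_cont _) (by rw [af_ash11]; simp)

noncomputable def NF0 (a : DQ) (j : ℕ) (t : AP × BP) (X Y : ℂ) (η : ℝ) : ℝ :=
  NG (fun η => 4 * af (ash 2 2 t.1) η) (fun η => 2 * af (ader (ash 2 2 t.1)) η)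
    (fun X => (Rr a j t.2 X : ℂ)) (fun X => (Rr a (j + 1) (qX a j t.2) X : ℂ))
    (fun X => (Rr a (j + 1) (qY a j t.2) X : ℂ)) X Y ((Y / X) ^ 1) η

noncomputable def KF0 (a : DQ) (j : ℕ) (t : AP × BP) (X Y : ℂ) : ℝ :=
  - (4 * af (ash 2 2 t.1) (π / 2) * ((Rr a j t.2 X : ℂ) * (Y / X) ^ 1).im)

noncomputable def NF1 (a : DQ) (j : ℕ) (t : AP × BP) (X Y : ℂ) (η : ℝ) : ℝ :=
  NG (fun η => 4 * af (ash 2 2 t.1) η) (fun η => 2 * af (ader (ash 2 2 t.1)) η)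
    (fun X => I * (Rr a j t.2 X : ℂ)) (fun X => I * (Rr a (j + 1) (qX a j t.2) X : ℂ))
    (fun X => I * (Rr a (j + 1) (qY a j t.2) X : ℂ)) X Y ((Y / X) ^ 1) η

noncomputable def KF1 (a : DQ) (j : ℕ) (t : AP × BP) (X Y : ℂ) : ℝ :=
  - (4 * af (ash 2 2 t.1) (π / 2) * (I * (Rr a j t.2 X : ℂ) * (Y / X) ^ 1).im)

theorem isNull_NF0 {a : DQ} {j : ℕ} (t : AP × BP) (h : dle (2 * j + 2) t.2 = true) :
    IsNull DiscP (NF0 a j t) (KF0 a j t) := by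
  obtain ⟨C, hC0, hC⟩ := Rr_le a j t.2 h
  obtain ⟨M, hM0, hM⟩ := af22_bdd t.1
  exact isNull_P (C₀ := 38) (C1c_real (c1_Rr a j t.2)) 1 (hd22 t.1)
    (continuous_const.mul (af_cont _)) (by rw [af_ash22]; simp) hC0 (by norm_num) hM0 hM
    (fun X => by rw [Complex.norm_real]; exact hC X) DiscP.q_le

theorem isNull_NF1 {a : DQ} {j : ℕ} (t : AP × BP) (h : dle (2 * j + 2) t.2 = true) :
    IsNull DiscP (NF1 a j t) (KF1 a j t) := by
  obtain ⟨C, hC0, hC⟩ := Rr_le a j t.2 h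
  obtain ⟨M, hM0, hM⟩ := af22_bdd t.1
  exact isNull_P (C₀ := 38) (C1c_I (c1_Rr a j t.2)) 1 (hd22 t.1)
    (continuous_const.mul (af_cont _)) (by rw [af_ash22]; simp) hC0 (by norm_num) hM0 hM
    (fun X => by rw [norm_mul, norm_I, one_mul, Complex.norm_real]; exact hC X) DiscP.q_le

end Pool.Agent.Helper69.EK5
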