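import Pool.Agent.Helper69.EK5.Fam
import Pool.Agent.Helper69.EK3.Tgt
set_option autoImplicit false
open Complex MeasureTheory Metric Set
open scoped Real ComplexConjugate

/-!
# Project EK5: the families as expressions
-/

namespace Pool.Agent.Helper69.EK5

open Pool.Sos71
open Pool.EK71 Pool.Agent.Helper52.EK Pool.Agent.Helper2.EK
open Pool.Agent.Helper69.EK3
open Pool.Agent.Helper71.EK3 (xL yL r2L FL G2L e_x e_y e_r2 e_F e_G2)
open Pool.Agent.Helper71.EKC (c1_unique pw2 e_pw sb2 e_sb)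

def Dn (a : DQ) (n : ℕ) : BP := pw2 (DL a) n

theorem Dn_ev (a : DQ) (n : ℕ) (X : ℂ) : ev2 (X.re - 1) X.im (Dn a n) = Dd a X.re X.im ^ n := by
  rw [Dn, e_pw, e_D]
  congr 2
  ring

section
variable (a : DQ) (K j : ℕ)

/-! ### `U` -/

def EU (t : AP × BP) : Ex :=
  Ex.add (Ex.mul (Ex.mul (apE t.1) ePR) (Ex.bp (mu2 (mu2 r2L (qL a j t.2)) (Dn a (K - j - 2)))))
    (Ex.mul (Ex.sc (-1) (apE (ader (ader (ash 2 2 t.1))))) (Ex.bp (mu2 t.2 (Dn a (K - j)))))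

theorem EU_re (t : AP × BP) (hK : j + 2 ≤ K) {X Y : ℂ} (hX : X ≠ 0) (l η : ℝ) :
    (EU a K j t).re (px l η X Y) = Dd a X.re X.im ^ K * NU a j t X Y η := by
  obtain ⟨m, rfl⟩ := Nat.exists_eq_add_of_le hK
  have hD := (Dd_pos a X.re X.im).ne'
  have e1 : j + 2 + m - j - 2 = m := by omega
  have e2 : j + 2 + m - j = m + 2 := by omega
  simp only [EU, Ex.re, apE_re, ePR, ev2_mu, e_r2, e1, e2]
  rw [show (px l η X Y).f = X.re - 1 from rfl, show (px l η X Y).g = X.im from rfl, Dn_ev, Dn_ev,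
    show (px l η X Y).b = Real.sin (η / 2) from rfl, show (px l η X Y).c = Real.cos (η / 2) from rfl,
    show (px l η X Y).d = Real.sin η * (Y / X).re from rfl,
    show (px l η X Y).e = Real.sin η * (Y / X).im from rfl]
  have h1 := sY_sq (Y := Y) hX (Real.sin η)
  unfold NU Rr
  rw [af_ash22]
  have e3 : Real.sin η ^ 2 * af t.1 η * (ev2 (X.re - 1) X.im (qL a j t.2) /
      Dd a X.re X.im ^ (j + 2)) * ‖Y‖ ^ 2 = (Real.sin η ^ 2 * ‖Y‖ ^ 2) * af t.1 η *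
      (ev2 (X.re - 1) X.im (qL a j t.2) / Dd a X.re X.im ^ (j + 2)) := by ring
  rw [e3, h1]
  unfold af
  have e4 : (1:ℝ) + (X.re - 1) = X.re := by ring
  rw [e4]
  have p1 : Dd a X.re X.im ^ (j + 2 + m) = Dd a X.re X.im ^ j * Dd a X.re X.im ^ 2 *
    Dd a X.re X.im ^ m := by rw [pow_add, pow_add]
  have p2 : Dd a X.re X.im ^ (j + 2) = Dd a X.re X.im ^ j * Dd a X.re X.im ^ 2 := by rw [pow_add]
  have p3 : Dd a X.re X.im ^ (m + 2) = Dd a X.re X.im ^ m * Dd a X.re X.im ^ 2 := by rw [pow_add]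
  rw [p1, p2, p3]
  field_simp
  push_cast
  ring

/-! ### `V`, `ξ`-type -/

def EVX (t : AP × BP) : Ex :=
  Ex.mul (apE t.1) (Ex.add
    (Ex.mul (Ex.va 3) (Ex.bp (mu2 (ad2 (mu2 xL (qX a j t.2)) (mu2 yL (qY a j t.2)))
      (Dn a (K - j - 1)))))
    (Ex.mul (Ex.va 4) (Ex.bp (mu2 (sb2 (mu2 xL (qY a j t.2)) (mu2 yL (qX a j t.2)))
      (Dn a (K - j - 1))))))

theorem EVX_re (t : AP × BP) (hK : j + 1 ≤ K) {X Y : ℂ} (hX : X ≠ 0) (l η : ℝ) :
    (EVX a K j t).re (px l η X Y) = Dd a X.re X.im ^ K * NVX a j t X Y η := by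
  obtain ⟨m, rfl⟩ := Nat.exists_eq_add_of_le hK
  have hD := (Dd_pos a X.re X.im).ne'
  have e1 : j + 1 + m - j - 1 = m := by omega
  simp only [EVX, Ex.re, apE_re, ev2_mu, ev2_ad, e_sb, e_x, e_y, e1]
  rw [show (px l η X Y).f = X.re - 1 from rfl, show (px l η X Y).g = X.im from rfl, Dn_ev,
    show (px l η X Y).b = Real.sin (η / 2) from rfl, show (px l η X Y).c = Real.cos (η / 2) from rfl,
    show (px l η X Y).d = Real.sin η * (Y / X).re from rfl,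
    show (px l η X Y).e = Real.sin η * (Y / X).im from rfl]
  unfold NVX Rr
  rw [af_ash11]
  have h1 := sY_re (Y := Y) hX (Real.sin η)
  have h2 := sY_im (Y := Y) hX (Real.sin η)
  have e3 : Real.sin η * af t.1 η * (ev2 (X.re - 1) X.im (qX a j t.2) /
      Dd a X.re X.im ^ (j + 1) * Y.re + ev2 (X.re - 1) X.im (qY a j t.2) /
      Dd a X.re X.im ^ (j + 1) * Y.im) = af t.1 η * (ev2 (X.re - 1) X.im (qX a j t.2) /
      Dd a X.re X.im ^ (j + 1) * (Real.sin η * Y.re) + ev2 (X.re - 1) X.im (qY a j t.2) /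
      Dd a X.re X.im ^ (j + 1) * (Real.sin η * Y.im)) := by ring
  rw [e3, h1, h2]
  unfold af
  have e4 : (1:ℝ) + (X.re - 1) = X.re := by ring
  rw [e4]
  have p1 : Dd a X.re X.im ^ (j + 1 + m) = Dd a X.re X.im ^ (j + 1) * Dd a X.re X.im ^ m := by
    rw [pow_add]
  rw [p1]
  field_simp
  ring

/-! ### `V`, `η`-type -/

def EVE (t : AP × BP) : Ex :=
  Ex.add (Ex.mul (apE t.1) (Ex.add
    (Ex.mul (Ex.va 3) (Ex.bp (mu2 (sb2 (mu2 xL (qY a j t.2)) (mu2 yL (qX a j t.2)))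
      (Dn a (K - j - 1)))))
    (Ex.mul (Ex.va 4) (Ex.bp (mu2 (sm2 (-1) (ad2 (mu2 xL (qX a j t.2)) (mu2 yL (qY a j t.2))))
      (Dn a (K - j - 1)))))))
    (Ex.mul (apE (ader (ash 1 1 t.1))) (Ex.bp (mu2 t.2 (Dn a (K - j)))))

theorem EVE_re (t : AP × BP) (hK : j + 1 ≤ K) {X Y : ℂ} (hX : X ≠ 0) (l η : ℝ) :
    (EVE a K j t).re (px l η X Y) = Dd a X.re X.im ^ K * NVE a j t X Y η := by
  obtain ⟨m, rfl⟩ := Nat.exists_eq_add_of_le hK
  have hD := (Dd_pos a X.re X.im).ne'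
  have e1 : j + 1 + m - j - 1 = m := by omega
  have e2 : j + 1 + m - j = m + 1 := by omega
  simp only [EVE, Ex.re, apE_re, ev2_mu, ev2_ad, ev2_sm, e_sb, e_x, e_y, e1, e2]
  rw [show (px l η X Y).f = X.re - 1 from rfl, show (px l η X Y).g = X.im from rfl, Dn_ev, Dn_ev,
    show (px l η X Y).b = Real.sin (η / 2) from rfl, show (px l η X Y).c = Real.cos (η / 2) from rfl,
    show (px l η X Y).d = Real.sin η * (Y / X).re from rfl,
    show (px l η X Y).e = Real.sin η * (Y / X).im from rfl]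
  unfold NVE Rr dEta
  rw [af_ash11]
  have h1 := sY_re (Y := Y) hX (Real.sin η)
  have h2 := sY_im (Y := Y) hX (Real.sin η)
  have e3 : Real.sin η * af t.1 η * (-(ev2 (X.re - 1) X.im (qX a j t.2) /
      Dd a X.re X.im ^ (j + 1)) * Y.im + ev2 (X.re - 1) X.im (qY a j t.2) /
      Dd a X.re X.im ^ (j + 1) * Y.re) = af t.1 η * (-(ev2 (X.re - 1) X.im (qX a j t.2) /
      Dd a X.re X.im ^ (j + 1)) * (Real.sin η * Y.im) + ev2 (X.re - 1) X.im (qY a j t.2) /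
      Dd a X.re X.im ^ (j + 1) * (Real.sin η * Y.re)) := by ring
  rw [e3, h1, h2]
  unfold af
  have e4 : (1:ℝ) + (X.re - 1) = X.re := by ring
  rw [e4]
  have p1 : Dd a X.re X.im ^ (j + 1 + m) = Dd a X.re X.im ^ j * Dd a X.re X.im *
      Dd a X.re X.im ^ m := by rw [pow_add, pow_succ]
  have p2 : Dd a X.re X.im ^ (j + 1) = Dd a X.re X.im ^ j * Dd a X.re X.im := by rw [pow_succ]
  have p3 : Dd a X.re X.im ^ (m + 1) = Dd a X.re X.im ^ m * Dd a X.re X.im := by rw [pow_succ]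
  rw [p1, p2, p3]
  field_simp
  push_cast
  ring

/-! ### fields `a₁ q` -/

def EF0 (t : AP × BP) : Ex :=
  Ex.add (Ex.mul (Ex.mul (apE t.1) ePR) (Ex.bp (mu2 (ad2 (mu2 xL (qX a j t.2))
      (mu2 yL (qY a j t.2))) (Dn a (K - j - 1)))))
    (Ex.mul (Ex.mul (Ex.sc (-1) (apE (adas t.1))) (Ex.va 4)) (Ex.bp (mu2 t.2 (Dn a (K - j)))))

def EF1 (t : AP × BP) : Ex :=
  Ex.add (Ex.mul (Ex.mul (apE t.1) ePR) (Ex.bp (mu2 (sb2 (mu2 yL (qX a j t.2))
      (mu2 xL (qY a j t.2))) (Dn a (K - j - 1)))))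
    (Ex.mul (Ex.mul (Ex.sc (-1) (apE (adas t.1))) (Ex.va 3)) (Ex.bp (mu2 t.2 (Dn a (K - j)))))

theorem EF0_re (t : AP × BP) (hK : j + 1 ≤ K) {X Y : ℂ} (hX : X ≠ 0) (l η : ℝ) :
    (EF0 a K j t).re (px l η X Y) = Dd a X.re X.im ^ K * NF0 a j t X Y η := by
  obtain ⟨m, rfl⟩ := Nat.exists_eq_add_of_le hK
  have hD := (Dd_pos a X.re X.im).ne'
  have e1 : j + 1 + m - j - 1 = m := by omega
  have e2 : j + 1 + m - j = m + 1 := by omega
  simp only [EF0, Ex.re, apE_re, ePR, ev2_mu, ev2_ad, e_sb, e_x, e_y, e1, e2]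
  rw [show (px l η X Y).f = X.re - 1 from rfl, show (px l η X Y).g = X.im from rfl, Dn_ev, Dn_ev,
    show (px l η X Y).b = Real.sin (η / 2) from rfl, show (px l η X Y).c = Real.cos (η / 2) from rfl,
    show (px l η X Y).d = Real.sin η * (Y / X).re from rfl,
    show (px l η X Y).e = Real.sin η * (Y / X).im from rfl]
  unfold NF0 NG
  rw [qcY hX]
  beta_reduce
  rw [af_ash22, af_adas, pow_one]
  unfold Rr
  simp only [mul_re, mul_im, add_re, add_im, ofReal_re, ofReal_im, I_re, I_im, conj_re, conj_im]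
  unfold af
  have e4 : (1:ℝ) + (X.re - 1) = X.re := by ring
  rw [e4]
  have p1 : Dd a X.re X.im ^ (j + 1 + m) = Dd a X.re X.im ^ j * Dd a X.re X.im *
      Dd a X.re X.im ^ m := by rw [pow_add, pow_succ]
  have p2 : Dd a X.re X.im ^ (j + 1) = Dd a X.re X.im ^ j * Dd a X.re X.im := by rw [pow_succ]
  have p3 : Dd a X.re X.im ^ (m + 1) = Dd a X.re X.im ^ m * Dd a X.re X.im := by rw [pow_succ]
  rw [p1, p2, p3]
  field_simp
  push_cast
  ring

theorem EF1_re (t : AP × BP) (hK : j + 1 ≤ K) {X Y : ℂ} (hX : X ≠ 0) (l η : ℝ) :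
    (EF1 a K j t).re (px l η X Y) = Dd a X.re X.im ^ K * NF1 a j t X Y η := by
  obtain ⟨m, rfl⟩ := Nat.exists_eq_add_of_le hK
  have hD := (Dd_pos a X.re X.im).ne'
  have e1 : j + 1 + m - j - 1 = m := by omega
  have e2 : j + 1 + m - j = m + 1 := by omega
  simp only [EF1, Ex.re, apE_re, ePR, ev2_mu, ev2_ad, e_sb, e_x, e_y, e1, e2]
  rw [show (px l η X Y).f = X.re - 1 from rfl, show (px l η X Y).g = X.im from rfl, Dn_ev, Dn_ev,
    show (px l η X Y).b = Real.sin (η / 2) from rfl, show (px l η X Y).c = Real.cos (η / 2) from rfl,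
    show (px l η X Y).d = Real.sin η * (Y / X).re from rfl,
    show (px l η X Y).e = Real.sin η * (Y / X).im from rfl]
  unfold NF1 NG
  rw [qcY hX]
  beta_reduce
  rw [af_ash22, af_adas, pow_one]
  unfold Rr
  simp only [mul_re, mul_im, add_re, add_im, ofReal_re, ofReal_im, I_re, I_im, conj_re, conj_im]
  unfold af
  have e4 : (1:ℝ) + (X.re - 1) = X.re := by ring
  rw [e4]
  have p1 : Dd a X.re X.im ^ (j + 1 + m) = Dd a X.re X.im ^ j * Dd a X.re X.im *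
      Dd a X.re X.im ^ m := by rw [pow_add, pow_succ]
  have p2 : Dd a X.re X.im ^ (j + 1) = Dd a X.re X.im ^ j * Dd a X.re X.im := by rw [pow_succ]
  have p3 : Dd a X.re X.im ^ (m + 1) = Dd a X.re X.im ^ m * Dd a X.re X.im := by rw [pow_succ]
  rw [p1, p2, p3]
  field_simp
  push_cast
  ring

end

def EH (a : DQ) (K : ℕ) (t : AP × ℕ) : Ex :=
  Ex.add (Ex.mul (Ex.mul (Ex.sc (-2) (apE t.1)) (Ex.mul (Ex.va 3) (Ex.va 4)))
      (Ex.bp (mu2 (reB t.2) (Dn a K))))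
    (Ex.mul (Ex.mul (apE t.1) (Ex.add (Ex.pow (Ex.va 4) 2) (Ex.sc (-1) (Ex.pow (Ex.va 3) 2))))
      (Ex.bp (mu2 (imB t.2) (Dn a K))))

theorem EH_re (a : DQ) (K : ℕ) (t : AP × ℕ) (ht : t.2 ≤ 2) (X Y : ℂ) (l η : ℝ) :
    (EH a K t).re (px l η X Y) = Dd a X.re X.im ^ K * NH t X Y η := by
  simp only [EH, Ex.re, apE_re, ev2_mu]
  rw [show (px l η X Y).f = X.re - 1 from rfl, show (px l η X Y).g = X.im from rfl, Dn_ev,
    reB_ev _ ht, imB_ev _ ht,
    show (px l η X Y).b = Real.sin (η / 2) from rfl, show (px l η X Y).c = Real.cos (η / 2) from rfl,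
    show (px l η X Y).d = Real.sin η * (Y / X).re from rfl,
    show (px l η X Y).e = Real.sin η * (Y / X).im from rfl]
  unfold NH NG
  have e : (t.2 : ℂ) * (X - 1) ^ (t.2 - 1) + I * (I * ((t.2 : ℂ) * (X - 1) ^ (t.2 - 1))) = 0 := by
    linear_combination ((t.2 : ℂ) * (X - 1) ^ (t.2 - 1)) * I_sq
  rw [e, zero_mul]
  beta_reduce
  rw [af_ash22]
  unfold af
  rw [pow_two (Y / X)]
  simp only [zero_re, mul_re, mul_im]
  push_cast
  ring

end Pool.Agent.Helper69.EK5
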