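import Pool.Agent.Helper69.EK3.XF
import Pool.Agent.Helper69.EK3.Ang
set_option autoImplicit false
open Complex MeasureTheory Metric Set
open scoped Real ComplexConjugate

/-!
# Project EK5: rational functions `P(X) / D ^ j`, `D` a positive quadratic polynomial,
given by integer lists
-/

namespace Pool.Agent.Helper69.EK5

open Pool.EK71 Pool.Agent.Helper52.EK Pool.Agent.Helper2.EK
open Pool.Agent.Helper69.EK3
open Pool.Agent.Helper71.EK3 (xL yL r2L FL G2L e_x e_y e_r2 e_F e_G2 c1_sh iadd_cast ofNat_cast)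
open Pool.Agent.Helper71.EKC (c1_unique d_mu d_sb d_sm dY_dX sb2 pw2 e_sb e_pw)

/-- `D = A (Re X - 1)² + E (Im X)² + B (Re X - 1) + C` -/
structure DQ where
  A : ℤ
  E : ℤ
  B : ℤ
  C : ℤ
  hA : 0 < A
  hE : 0 < E
  hB : B ^ 2 < 4 * (A * C)

noncomputable def Dd (d : DQ) (x y : ℝ) : ℝ :=
  d.A * (x - 1) ^ 2 + d.E * y ^ 2 + d.B * (x - 1) + d.C

theorem Dd_low (d : DQ) : ∃ k : ℝ, 0 < k ∧ ∀ x y : ℝ,
    1 + ((x - 1) ^ 2 + y ^ 2) ≤ k * Dd d x y := by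
  have hA : (0:ℝ) < d.A := by exact_mod_cast d.hA
  have hE1 : (0:ℝ) < d.E := by exact_mod_cast d.hE
  have hB : (d.B : ℝ) ^ 2 < 4 * (d.A * d.C) := by exact_mod_cast d.hB
  have hC : (0:ℝ) < d.C := by
    by_contra h
    nlinarith [sq_nonneg (d.B : ℝ), mul_nonneg hA.le (neg_nonneg.2 (not_lt.1 h))]
  obtain ⟨E, hE⟩ : ∃ E : ℝ, E = 4 * (d.A * d.C) - (d.B : ℝ) ^ 2 := ⟨_, rfl⟩
  have hE0 : 0 < E := by rw [hE]; linarith
  have h0 : ∀ x : ℝ, 1 + (x - 1) ^ 2 ≤ 4 * (d.A + d.C) / E * (d.A * (x - 1) ^ 2 + d.B * (x - 1) + d.C) := by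
    intro x
    rw [div_mul_eq_mul_div, le_div_iff₀ hE0]
    have h1 : 0 ≤ 4 * (((d.A : ℝ) + d.C) * (d.A * (x - 1) ^ 2 + d.B * (x - 1) + d.C)) -
        E * (1 + (x - 1) ^ 2) := by
      have e : 4 * (((d.A : ℝ) + d.C) * (d.A * (x - 1) ^ 2 + d.B * (x - 1) + d.C)) -
        E * (1 + (x - 1) ^ 2) = (2 * d.A * (x - 1) + d.B) ^ 2 + (2 * d.C + d.B * (x - 1)) ^ 2 := by
        rw [hE]
        ring
      rw [e]
      positivity
    linarith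
  refine ⟨4 * (d.A + d.C) / E + 1 / d.E, by positivity, fun x y => ?_⟩
  have h1 := h0 x
  have hq : 0 ≤ d.A * (x - 1) ^ 2 + d.B * (x - 1) + d.C := by
    have h2 : 0 < 4 * ((d.A : ℝ) + d.C) / E := by positivity
    have h3 : 0 < 4 * ((d.A : ℝ) + d.C) / E * (d.A * (x - 1) ^ 2 + d.B * (x - 1) + d.C) := by
      nlinarith [sq_nonneg (x - 1)]
    exact ((mul_pos_iff_of_pos_left h2).1 h3).le
  have h2 : 1 / (d.E : ℝ) * (d.E * y ^ 2) = y ^ 2 := by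
    field_simp
  have h3 : 0 ≤ 4 * ((d.A : ℝ) + d.C) / E * (d.E * y ^ 2) := by positivity
  have h4 : 0 ≤ 1 / (d.E : ℝ) * (d.A * (x - 1) ^ 2 + d.B * (x - 1) + d.C) := by positivity
  unfold Dd
  have e : (4 * ((d.A : ℝ) + d.C) / E + 1 / d.E) * (d.A * (x - 1) ^ 2 + d.E * y ^ 2 +
      d.B * (x - 1) + d.C) = 4 * ((d.A : ℝ) + d.C) / E * (d.A * (x - 1) ^ 2 + d.B * (x - 1) +
      d.C) + 1 / d.E * (d.E * y ^ 2) + 4 * ((d.A : ℝ) + d.C) / E * (d.E * y ^ 2) +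
      1 / d.E * (d.A * (x - 1) ^ 2 + d.B * (x - 1) + d.C) := by ring
  rw [e, h2]
  linarith

theorem Dd_pos (d : DQ) (x y : ℝ) : 0 < Dd d x y := by
  obtain ⟨k, hk, h⟩ := Dd_low d
  have h1 := h x y
  have h2 : 0 < k * Dd d x y := by nlinarith [sq_nonneg (x - 1), sq_nonneg y]
  exact (mul_pos_iff_of_pos_left hk).1 h2

/-- `D` as a polynomial in `(Re X - 1, Im X)` -/
def DL (d : DQ) : BP := [[d.C, 0, d.E], [d.B], [d.A]]

def DxL (d : DQ) : BP := [[d.B], [Int.mul 2 d.A]]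
def DyL (d : DQ) : BP := [[0, Int.mul 2 d.E]]

theorem e_D (u y : ℝ) (d : DQ) : ev2 u y (DL d) = Dd d (1 + u) y := by
  simp only [ev2, ev1, DL, Dd]
  push_cast
  ring

theorem e_Dx (u y : ℝ) (d : DQ) : ev2 u y (DxL d) = 2 * d.A * u + d.B := by
  simp only [ev2, ev1, DxL, imul_cast']
  push_cast
  ring

theorem e_Dy (u y : ℝ) (d : DQ) : ev2 u y (DyL d) = 2 * d.E * y := by
  simp only [ev2, ev1, DyL, imul_cast']
  push_cast
  ring

theorem e_dD (u y : ℝ) (d : DQ) : ev2 u y (dX (DL d)) = 2 * d.A * u + d.B ∧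
    ev2 u y (dY (DL d)) = 2 * d.E * y := by
  constructor
  · simp [DL, dX, dx1, sm1, ev2, ev1]
    ring
  · simp [DL, dY, dyr, dy1, ev2, ev1]
    ring

theorem c1_Dd (d : DQ) : C1f (fun X => Dd d X.re X.im) (fun X => 2 * d.A * (X.re - 1) + d.B)
    (fun X => 2 * d.E * X.im) := by
  refine c1_congr (c1_sh (DL d)) (fun X => ?_) (fun X => ?_) (fun X => ?_)
  · rw [e_D]
    congr 1
    ring
  · rw [(e_dD _ _ d).1]
  · rw [(e_dD _ _ d).2]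

/-- `A / D^k` -/
theorem c1_divD (d : DQ) {A Ax Ay : ℂ → ℝ} (hA : C1f A Ax Ay) (k : ℕ) :
    C1f (fun X => A X / Dd d X.re X.im ^ k)
      (fun X => (Ax X * Dd d X.re X.im - k * (2 * d.A * (X.re - 1) + d.B) * A X)
        / (Dd d X.re X.im ^ k * Dd d X.re X.im))
      (fun X => (Ay X * Dd d X.re X.im - k * (2 * d.E * X.im) * A X)
        / (Dd d X.re X.im ^ k * Dd d X.re X.im)) := by
  induction k with
  | zero =>
    refine c1_congr hA ?_ ?_ ?_ <;> intro X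
    · simp
    · have := (Dd_pos d X.re X.im).ne'
      field_simp
      simp
    · have := (Dd_pos d X.re X.im).ne'
      field_simp
      simp
  | succ k ih =>
    refine c1_congr (c1_mul ih (c1_inv (c1_Dd d) fun X => (Dd_pos d X.re X.im).ne')) ?_ ?_ ?_ <;>
      intro X <;> have := (Dd_pos d X.re X.im).ne' <;> push_cast <;> field_simp <;> ring

/-- numerators of the derivatives of `P / D ^ j` -/
def qX (d : DQ) (j : ℕ) (P : BP) : BP :=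
  sb2 (mu2 (DL d) (dX P)) (sm2 (Int.ofNat j) (mu2 (DxL d) P))
def qY (d : DQ) (j : ℕ) (P : BP) : BP :=
  sb2 (mu2 (DL d) (dY P)) (sm2 (Int.ofNat j) (mu2 (DyL d) P))

/-- `P / D ^ j` at `X`; the variables of `P` are `Re X - 1` and `Im X` -/
noncomputable def Rr (d : DQ) (j : ℕ) (P : BP) (X : ℂ) : ℝ :=
  ev2 (X.re - 1) X.im P / Dd d X.re X.im ^ j

theorem qX_ev (d : DQ) (j : ℕ) (P : BP) (u y : ℝ) : ev2 u y (qX d j P) =
    ev2 u y (dX P) * Dd d (1 + u) y - j * (2 * d.A * u + d.B) * ev2 u y P := by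
  rw [qX, e_sb, ev2_mu, ev2_sm, ev2_mu, e_D, e_Dx, ofNat_cast']
  ring

theorem qY_ev (d : DQ) (j : ℕ) (P : BP) (u y : ℝ) : ev2 u y (qY d j P) =
    ev2 u y (dY P) * Dd d (1 + u) y - j * (2 * d.E * y) * ev2 u y P := by
  rw [qY, e_sb, ev2_mu, ev2_sm, ev2_mu, e_D, e_Dy, ofNat_cast']
  ring

theorem c1_Rr (d : DQ) (j : ℕ) (P : BP) :
    C1f (Rr d j P) (Rr d (j + 1) (qX d j P)) (Rr d (j + 1) (qY d j P)) := by
  have ex : ∀ X : ℂ, 1 + (X.re - 1) = X.re := fun X => by ring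
  refine c1_congr (c1_divD d (c1_sh P) j) (fun X => rfl) (fun X => ?_) (fun X => ?_)
  · unfold Rr
    rw [qX_ev, ex, pow_succ]
  · unfold Rr
    rw [qY_ev, ex, pow_succ]

/-- numerator of the Laplacian of `P / D ^ j` over `D ^ (j + 2)` -/
def qL (d : DQ) (j : ℕ) (P : BP) : BP := ad2 (qX d (j + 1) (qX d j P)) (qY d (j + 1) (qY d j P))

theorem q_comm' (d : DQ) (j : ℕ) (P : BP) (u y : ℝ) :
    ev2 u y (qY d (j + 1) (qX d j P)) = ev2 u y (qX d (j + 1) (qY d j P)) := by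
  have exy : ev2 u y (dY (DxL d)) = 0 ∧ ev2 u y (dX (DyL d)) = 0 := by
    constructor
    · simp [DxL, dY, dyr, dy1, ev2, ev1]
    · simp [DyL, dX, dx1, ev2, ev1]
  rw [qY_ev, qX_ev d j P, qX_ev d (j + 1) (qY d j P), qY_ev d j P]
  have h1 : ev2 u y (dY (qX d j P)) = (2 * d.E * y) * ev2 u y (dX P)
      + Dd d (1 + u) y * ev2 u y (dX (dY P)) - j * (2 * d.A * u + d.B) * ev2 u y (dY P) := by
    rw [qX, (d_sb u y _ _).2, (d_mu u y _ _).2, (d_sm u y _ _).2, (d_mu u y _ _).2, (e_dD u y d).2,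
      exy.1, e_D, e_Dx, dY_dX, ofNat_cast']
    ring
  have h2 : ev2 u y (dX (qY d j P)) = (2 * d.A * u + d.B) * ev2 u y (dY P)
      + Dd d (1 + u) y * ev2 u y (dX (dY P)) - j * (2 * d.E * y) * ev2 u y (dX P) := by
    rw [qY, (d_sb u y _ _).1, (d_mu u y _ _).1, (d_sm u y _ _).1, (d_mu u y _ _).1, (e_dD u y d).1,
      exy.2, e_D, e_Dy, ofNat_cast']
    ring
  rw [h1, h2]
  push_cast
  ring

theorem c2_Rr (d : DQ) (j : ℕ) (P : BP) :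
    C2f (Rr d j P) (Rr d (j + 1) (qX d j P)) (Rr d (j + 1) (qY d j P))
      (Rr d (j + 2) (qL d j P)) := by
  refine ⟨c1_Rr d j P, _, _, _, c1_Rr d (j + 1) (qX d j P),
    c1_congr (c1_Rr d (j + 1) (qY d j P)) (fun _ => rfl)
      (W' := Rr d (j + 1) (qY d j P))
      (Wx' := Rr d (j + 1 + 1) (qY d (j + 1) (qX d j P))) (fun X => ?_) (fun _ => rfl),
      fun X => ?_⟩
  · unfold Rr
    rw [q_comm']
  · unfold Rr
    rw [qL, ev2_ad]
    ring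

theorem normsq_sub_one (X : ℂ) : ‖X - 1‖ ^ 2 = (X.re - 1) ^ 2 + X.im ^ 2 := by
  rw [← normSq_eq_norm_sq, normSq_apply]
  simp
  ring

theorem Rr_le (d : DQ) (j : ℕ) (P : BP) (h : dle (2 * j + 2) P = true) :
    ∃ C : ℝ, 0 ≤ C ∧ ∀ X : ℂ, |Rr d j P X| ≤ C * (1 + ‖X - 1‖ ^ 2) := by
  obtain ⟨k, hk, hl⟩ := Dd_low d
  refine ⟨nr2 P * k ^ j, mul_nonneg (nr2_nonneg P) (by positivity), fun X => ?_⟩
  have e := normsq_sub_one X
  obtain ⟨T, hT⟩ : ∃ T, T = Real.sqrt (1 + ‖X - 1‖ ^ 2) := ⟨_, rfl⟩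
  have hT2 : T ^ 2 = 1 + ‖X - 1‖ ^ 2 := by
    rw [hT]
    exact Real.sq_sqrt (by positivity)
  have hT0 : 0 ≤ T := by rw [hT]; exact Real.sqrt_nonneg _
  have hT1 : 1 ≤ T := by
    have : (1:ℝ) ^ 2 ≤ T ^ 2 := by rw [hT2]; nlinarith [sq_nonneg ‖X - 1‖]
    exact le_of_sq_le_sq this hT0
  have hx : |X.re - 1| ≤ T := by
    refine le_of_sq_le_sq ?_ hT0
    rw [sq_abs, hT2, e]
    nlinarith [sq_nonneg X.im]
  have hy : |X.im| ≤ T := by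
    refine le_of_sq_le_sq ?_ hT0
    rw [sq_abs, hT2, e]
    nlinarith [sq_nonneg (X.re - 1)]
  have h1 := ev2_le' hT1 hx hy _ P h
  have hD : 1 + ‖X - 1‖ ^ 2 ≤ k * Dd d X.re X.im := by
    rw [e]
    exact hl X.re X.im
  have hDp := Dd_pos d X.re X.im
  unfold Rr
  rw [abs_div, abs_of_pos (pow_pos hDp j), div_le_iff₀ (pow_pos hDp j)]
  refine h1.trans ?_
  have e2 : T ^ (2 * j + 2) = (1 + ‖X - 1‖ ^ 2) ^ j * (1 + ‖X - 1‖ ^ 2) := by
    rw [pow_add, pow_mul, hT2]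
  rw [e2]
  have h3 : (1 + ‖X - 1‖ ^ 2) ^ j ≤ (k * Dd d X.re X.im) ^ j :=
    pow_le_pow_left₀ (by positivity) hD j
  rw [mul_pow] at h3
  have h4 : (1 + ‖X - 1‖ ^ 2) ^ j * (1 + ‖X - 1‖ ^ 2) ≤
      (k ^ j * Dd d X.re X.im ^ j) * (1 + ‖X - 1‖ ^ 2) :=
    mul_le_mul_of_nonneg_right h3 (by positivity)
  calc nr2 P * ((1 + ‖X - 1‖ ^ 2) ^ j * (1 + ‖X - 1‖ ^ 2)) ≤
        nr2 P * ((k ^ j * Dd d X.re X.im ^ j) * (1 + ‖X - 1‖ ^ 2)) :=
        mul_le_mul_of_nonneg_left h4 (nr2_nonneg P)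
    _ = _ := by ring

end Pool.Agent.Helper69.EK5
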